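import Pool.Agent.Y377.IR.Basic
import Pool.Agent.Y43.IL.Alg

/-!
IR-COM: symmetries preserve finite extensions, for groups of automorphisms.
-/

set_option autoImplicit false

namespace Pool.Agent.Y495.IR

open Pool.Agent.Y377.EL Pool.Agent.Y377.IL Pool.Agent.Y377.IR Pool.Agent.Y43.IL Polynomial

variable {K : Type} [Field K] [Algebra ℂ K]

/-- the difference of a conjugate of a derivation and the derivation -/
noncomputable def conjDer (γ : K ≃ₐ[ℂ] K) (δ : Derivation ℂ K K) : Derivation ℂ K K :=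
  Derivation.mk' ((γ.symm.toLinearMap ∘ₗ (δ : K →ₗ[ℂ] K) ∘ₗ γ.toLinearMap) - (δ : K →ₗ[ℂ] K)) (by
    intro a b
    show γ.symm (δ (γ (a * b))) - δ (a * b) =
      a * (γ.symm (δ (γ b)) - δ b) + b * (γ.symm (δ (γ a)) - δ a)
    rw [map_mul, δ.leibniz, δ.leibniz, smul_eq_mul, smul_eq_mul, smul_eq_mul, smul_eq_mul,
      map_add, map_mul, map_mul, γ.symm_apply_apply, γ.symm_apply_apply]
    ring)

lemma conjDer_apply (γ : K ≃ₐ[ℂ] K) (δ : Derivation ℂ K K) (x : K) :
    conjDer γ δ x = γ.symm (δ (γ x)) - δ x := rfl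

theorem t_COM : Pool.Agent.Y377.IR.G_COM := by
  intro K _ _ Γ δ B S hBS hDB hDS hsimp hfin hδB hcomm
  have halg : ∀ x ∈ S, IsAlgebraic B x := fun x hx => alg_of_fg hBS hfin hx
  have hbr : ∀ γ ∈ Γ, ∀ x ∈ S, γ (δ x) = δ (γ x) := by
    intro γ hγ x hx
    have h1 : conjDer γ δ x = 0 := by
      apply alg_zero (B := B) _ (halg x hx)
      intro b hb
      rw [conjDer_apply, ← hcomm γ hγ b hb, γ.symm_apply_apply, sub_self]
    rw [conjDer_apply, sub_eq_zero] at h1
    rw [← h1, γ.apply_symm_apply]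
  refine ⟨?_, hbr⟩
  obtain ⟨N, ⟨T, hT⟩, hN⟩ := hfin
  classical
  set N' : Submodule S K := Submodule.span S (insert 1 (δ '' (T : Set K))) with hN'
  have h1N : (1 : K) ∈ N' := Submodule.subset_span (Set.mem_insert _ _)
  have hSN : ∀ s ∈ S, s ∈ N' := by
    intro s hs
    have h1 := N'.smul_mem (⟨s, hs⟩ : S) h1N
    rw [Algebra.smul_def, mul_one] at h1
    exact h1
  have hTS : ∀ t ∈ T, t ∈ S := fun t ht => (hN t).1 (hT ▸ Submodule.subset_span ht)
  have hδN : ∀ u ∈ S, δ u ∈ N' := by
    intro u hu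
    have hu' : u ∈ Submodule.span B (T : Set K) := by rw [hT]; exact (hN u).2 hu
    clear hu
    induction hu' using Submodule.span_induction with
    | mem t ht => exact Submodule.subset_span (Set.mem_insert_of_mem _ ⟨t, ht, rfl⟩)
    | zero => rw [map_zero]; exact N'.zero_mem
    | add a b _ _ ha hb => rw [map_add]; exact N'.add_mem ha hb
    | smul b a ha' ha =>
      have h1 : δ (b • a) = (b : K) * δ a + a * δ (b : K) := by
        rw [Algebra.smul_def]
        change δ ((b : K) * a) = _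
        rw [δ.leibniz, smul_eq_mul, smul_eq_mul]
      rw [h1]
      have haS : a ∈ S := (hN a).1 (hT ▸ ha')
      refine N'.add_mem ?_ (hSN _ (S.mul_mem haS (hBS (hδB _ b.2))))
      have h2 := N'.smul_mem (⟨b, hBS b.2⟩ : S) ha
      rw [Algebra.smul_def] at h2
      exact h2
  have hfrac : ∀ u ∈ S, δ u ∈ frac S := by
    intro u hu
    obtain ⟨P, -, hP1, hP2⟩ := Pool.Agent.Y43.IL.alg_der hδB (halg u hu)
    have hm : ∀ Q : B[X], aeval u Q ∈ S := fun Q =>
      aeval_mem' (V := S.toSubring) (fun r hr => hBS hr) hu Q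
    refine ⟨_, hm _, hP1, ?_⟩
    rw [hP2]
    exact S.neg_mem (hm _)
  intro u hu
  refine hsimp.mem_of_fg hDS (N := N') ?_ ?_ ?_ (hδN u hu)
  · intro γ hγ x hx
    rw [hN'] at hx
    induction hx using Submodule.span_induction with
    | mem t ht =>
      rcases ht with rfl | ⟨t, ht, rfl⟩
      · rw [map_one]; exact h1N
      · rw [hbr γ hγ t (hTS t ht)]
        exact hδN _ (hDS γ hγ _ (hTS t ht))
    | zero => rw [map_zero]; exact N'.zero_mem
    | add a b _ _ ha hb => rw [map_add]; exact N'.add_mem ha hb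
    | smul b a ha' ha =>
      have h1 : γ (b • a) = γ (b : K) * γ a := by
        rw [Algebra.smul_def]
        change γ ((b : K) * a) = _
        rw [map_mul]
      rw [h1]
      have h2 := N'.smul_mem (⟨γ b, hDS γ hγ _ b.2⟩ : S) ha
      rw [Algebra.smul_def] at h2
      exact h2
  · exact Submodule.fg_span ((T.finite_toSet.image δ).insert 1)
  · intro x hx
    rw [hN'] at hx
    induction hx using Submodule.span_induction with
    | mem t ht =>
      rcases ht with rfl | ⟨t, ht, rfl⟩
      · exact one_mem _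
      · exact hfrac t (hTS t ht)
    | zero => exact zero_mem _
    | add a b _ _ ha hb => exact add_mem ha hb
    | smul b a ha' ha =>
      rw [Algebra.smul_def]
      exact mul_mem (le_frac S b.2) ha

end Pool.Agent.Y495.IR
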